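import Pool.Agent.helper69.G5.Spec

/-!
# Project gbx: (copy of gb:BSY) (MP_af9036_an, MP_70a088_an), module BSYX (extract of helper21/GR3/COR3.lean)
-/

set_option autoImplicit false

open Complex Metric Set Filter Topology MeasureTheory
open MPS (om)
open PPS (pre TT fd)
open XPS (Df er dens tau)
open Pool.Agent.helper16.Multibrot

noncomputable section

namespace GR

theorem BSYX_om (n : ℕ) : ‖om n‖ = 1 := by
  unfold MPS.om
  rw [show (2 * (Real.pi : ℂ) * Complex.I / (n : ℂ)) = ((2 * Real.pi / n : ℝ) : ℂ) * Complex.I by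
    push_cast; ring]
  exact Complex.norm_exp_ofReal_mul_I _

/-- the area of an annulus -/
theorem BSYX_area (r : ℝ) (hr : 0 < r) :
    ENNReal.ofReal (2 * r ^ 2) ≤ volume (ball (0 : ℂ) r \ closedBall (0 : ℂ) (r / 2)) := by
  have hsub : closedBall (0 : ℂ) (r / 2) ⊆ ball (0 : ℂ) r := closedBall_subset_ball (by linarith)
  rw [measure_sdiff hsub measurableSet_closedBall.nullMeasurableSet measure_closedBall_lt_top.ne]
  rw [Complex.volume_ball, Complex.volume_closedBall]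
  have h1 : (NNReal.pi : ENNReal) = ENNReal.ofReal Real.pi := by
    rw [← NNReal.coe_real_pi, ENNReal.ofReal_coe_nnreal]
  rw [h1, ← ENNReal.ofReal_pow hr.le, ← ENNReal.ofReal_pow (by linarith : (0 : ℝ) ≤ r / 2),
    ← ENNReal.ofReal_mul (by positivity), ← ENNReal.ofReal_mul (by positivity),
    ← ENNReal.ofReal_sub _ (by positivity)]
  apply ENNReal.ofReal_le_ofReal
  have := Real.pi_gt_three
  nlinarith [sq_nonneg r, pow_pos hr 2]

/-- the pointwise lower bound on the annulus -/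
theorem BSYX_point (hPH3 : PH3_stmt) (n : ℕ) (hn : 2 ≤ n) (ρ t : ℝ) (κ : ℂ) (d : ℤ)
    (hd : ¬ ((n : ℤ) ∣ d + 2)) (T : ℂ → ℂ) (hρ0 : 0 < ρ)
    (hT : ∀ w : ℂ, ρ / 2 < ‖w‖ → ‖w‖ < ρ → ‖T w - κ * w ^ d‖ ≤ 1 / 4 * ‖κ * w ^ d‖ ∧ t ≤ ‖κ * w ^ d‖)
    (w : ℂ) (hw1 : ρ / 2 < ‖w‖) (hw2 : ‖w‖ < ρ) :
    (n : ℝ) / 2 * t ≤ ∑ k ∈ Finset.range n, ‖T (om n ^ k * w)‖ -
      ‖∑ k ∈ Finset.range n, om n ^ (2 * k) * T (om n ^ k * w)‖ := by
  have hw0 : w ≠ 0 := by
    intro h0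
    rw [h0, norm_zero] at hw1
    linarith
  have hnorm : ∀ k : ℕ, ‖om n ^ k * w‖ = ‖w‖ := by
    intro k
    rw [norm_mul, norm_pow, BSYX_om, one_pow, one_mul]
  have hzn : ∀ k : ℕ, ‖κ * (om n ^ k * w) ^ d‖ = ‖κ * w ^ d‖ := by
    intro k
    rw [norm_mul, norm_mul, norm_zpow, norm_zpow, hnorm]
  have hpha := hPH3 n hn κ w (fun k => T (om n ^ k * w)) d hd hw0 (by
    intro k _
    have := (hT (om n ^ k * w) (by rw [hnorm]; exact hw1) (by rw [hnorm]; exact hw2)).1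
    rw [hzn] at this
    exact this)
  have h1 := (hT w hw1 hw2).2
  exact (mul_le_mul_of_nonneg_left h1 (by positivity)).trans hpha

theorem BSYX (hSYM : SYMX_stmt) (hPH3 : PH3_stmt) : BSYX_stmt := by
  intro xx C n c p q G E hKQ hret hG hX16 hBm hDm hem hEg hE m hm κ d ρ t hd hρ0 hρR ht hT
  have hn2 : 2 ≤ n := hret.hn
  have hn0 : (0 : ℝ) < n := by exact_mod_cast (by omega : 0 < n)
  have hsym := hSYM C n c p q G (Bx xx n c p) E hKQ hret hG hX16 hBm hDm hem hEg m hm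
  have hsub : ball (0 : ℂ) ρ \ closedBall (0 : ℂ) (ρ / 2) ⊆ ball 0 (R n c q / (8 * C)) := by
    intro w hw
    exact ball_subset_ball hρR hw.1
  have hmeas : MeasurableSet (ball (0 : ℂ) ρ \ closedBall (0 : ℂ) (ρ / 2)) :=
    measurableSet_ball.diff measurableSet_closedBall
  have hlow : ∀ w ∈ ball (0 : ℂ) ρ \ closedBall (0 : ℂ) (ρ / 2),
      ENNReal.ofReal ((n : ℝ) / 2 * t) ≤ ENNReal.ofReal
        (∑ k ∈ Finset.range n, ‖tau (Bx xx n c p) G m (om n ^ k * w)‖ -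
          ‖∑ k ∈ Finset.range n, om n ^ (2 * k) * tau (Bx xx n c p) G m (om n ^ k * w)‖) := by
    intro w hw
    apply ENNReal.ofReal_le_ofReal
    refine BSYX_point hPH3 n hn2 ρ t κ d hd (tau (Bx xx n c p) G m) hρ0 hT w ?_ ?_
    · have h1 := hw.2
      rw [mem_closedBall_zero_iff, not_le] at h1
      exact h1
    · exact mem_ball_zero_iff.1 hw.1
  have hchain : ENNReal.ofReal ((n : ℝ) / 2 * t) * ENNReal.ofReal (2 * ρ ^ 2) ≤
      2 * n * ENNReal.ofReal E := by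
    calc ENNReal.ofReal ((n : ℝ) / 2 * t) * ENNReal.ofReal (2 * ρ ^ 2)
        ≤ ENNReal.ofReal ((n : ℝ) / 2 * t) *
          volume (ball (0 : ℂ) ρ \ closedBall (0 : ℂ) (ρ / 2)) :=
          mul_le_mul_right (BSYX_area ρ hρ0) _
      _ = ∫⁻ w in ball (0 : ℂ) ρ \ closedBall (0 : ℂ) (ρ / 2),
          ENNReal.ofReal ((n : ℝ) / 2 * t) := by
          rw [setLIntegral_const]
      _ ≤ ∫⁻ w in ball (0 : ℂ) ρ \ closedBall (0 : ℂ) (ρ / 2), ENNReal.ofReal
        (∑ k ∈ Finset.range n, ‖tau (Bx xx n c p) G m (om n ^ k * w)‖ -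
          ‖∑ k ∈ Finset.range n, om n ^ (2 * k) * tau (Bx xx n c p) G m (om n ^ k * w)‖) :=
          setLIntegral_mono' hmeas hlow
      _ ≤ _ := lintegral_mono_set hsub
      _ ≤ _ := hsym
  rw [← ENNReal.ofReal_mul (by positivity), show (2 : ENNReal) * (n : ENNReal) =
    ENNReal.ofReal (2 * (n : ℝ)) by
      rw [ENNReal.ofReal_mul (by norm_num), ENNReal.ofReal_natCast]; norm_num,
    ← ENNReal.ofReal_mul (by positivity), ENNReal.ofReal_le_ofReal_iff (by positivity)] at hchain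
  have e1 : (n : ℝ) / 2 * t * (2 * ρ ^ 2) = n * (t * ρ ^ 2) := by ring
  have e2 : 2 * (n : ℝ) * E = n * (2 * E) := by ring
  rw [e1, e2] at hchain
  exact le_of_mul_le_mul_left hchain hn0

end GR
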