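import Pool.Agent.helper69.G5.Spec

/-!
# Project gbx: (MP_af9036_an, MP_70a088_an), modules GC2 and GCB (copy of gb:BCOR, helper1)
-/

set_option autoImplicit false

open Complex Metric Set Filter Topology MeasureTheory
open MPS (om)
open PPS (pre TT fd)
open XPS (Df er dens tau)
open Pool.Agent.helper16.Multibrot

noncomputable section

namespace GR

theorem GC2_SS (n : ℕ) (c : ℂ) (p : ℕ) (hp : 1 ≤ p) (hA : A n c 1 = 1) : 1 ≤ SS n c p := by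
  have h1 : ∀ i ∈ Finset.Icc 1 p, 0 ≤ ∑ j ∈ Finset.Icc 1 p, ‖A n c j‖ / ‖A n c i‖ :=
    fun i _ => Finset.sum_nonneg fun j _ => by positivity
  have hmem : 1 ∈ Finset.Icc 1 p := Finset.mem_Icc.2 ⟨le_refl _, hp⟩
  have h2 := Finset.single_le_sum h1 hmem
  have h3 := Finset.single_le_sum (f := fun j => ‖A n c j‖ / ‖A n c 1‖)
    (fun j _ => by positivity) hmem
  have h4 : ‖A n c 1‖ / ‖A n c 1‖ = 1 := by rw [hA, norm_one, div_one]
  have h5 : ‖A n c 1‖ / ‖A n c 1‖ ≤ ∑ j ∈ Finset.Icc 1 p, ‖A n c j‖ / ‖A n c 1‖ := h3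
  rw [h4] at h5
  exact h5.trans h2

/-- the numerical end, first alternative -/
theorem GC2_end1 (C ε c₀ z s : ℝ) (hC : 1 ≤ C) (hc₀ : 0 < c₀)
    (hs : s = z / (16 * C ^ 2)) (h : s * c₀ ^ 2 ≤ 2 * (3 * ε)) :
    z ≤ 96 * C ^ 2 / c₀ ^ 2 * ε := by
  have hC0 : 0 < C := by linarith
  rw [hs, div_mul_eq_mul_div, div_le_iff₀ (by positivity)] at h
  rw [div_mul_eq_mul_div, le_div_iff₀ (by positivity)]
  linarith

/-- the numerical end, second alternative -/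
theorem GC2_end2 (C ε c₀ z s N K₁ W : ℝ) (hC : 1 ≤ C) (hc₀ : 0 < c₀) (hε : 0 ≤ ε) (hN : 0 ≤ N)
    (hNK : N ≤ K₁ * W) (hs : s = z / (16 * C ^ 2)) (h : s * c₀ ^ 4 ≤ 10 ^ 16 * (3 * ε) * N ^ 4) :
    z ≤ 48 * 10 ^ 16 * C ^ 2 * K₁ ^ 4 / c₀ ^ 4 * (W ^ 4 * ε) := by
  have hC0 : 0 < C := by linarith
  rw [hs, div_mul_eq_mul_div, div_le_iff₀ (by positivity)] at h
  have h2 : N ^ 4 ≤ (K₁ * W) ^ 4 := pow_le_pow_left₀ hN hNK 4
  rw [mul_pow] at h2
  have h4 : 10 ^ 16 * (3 * ε) * N ^ 4 * (16 * C ^ 2) ≤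
      10 ^ 16 * (3 * ε) * (K₁ ^ 4 * W ^ 4) * (16 * C ^ 2) :=
    mul_le_mul_of_nonneg_right (mul_le_mul_of_nonneg_left h2 (by positivity)) (by positivity)
  rw [div_mul_eq_mul_div, le_div_iff₀ (by positivity)]
  calc z * c₀ ^ 4 ≤ _ := h
    _ ≤ _ := h4
    _ = _ := by ring

theorem GC2 (hKO1 : V3.KO1_stmt) (hKO3 : V3.KO3_stmt) (hNAT : NAT_stmt) (hMSB : MSBX_stmt)
    (hENG : ENG_stmt) (hTOW : TOW_stmt) (hBCI : BCIX_stmt) (hBCF : BCFX_stmt)
    (hBAB : BABX_stmt) (hBNN : BNN_stmt) : GC2_stmt := by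
  obtain ⟨C, hC1, hC⟩ := hKO1
  have hKQ : KQ C := ⟨hC1, hC⟩
  obtain ⟨D, hD1, hD⟩ := hKO3 (1 / 2) (by norm_num) (by norm_num)
  have hKD : KD D := by
    refine ⟨hD1, ?_⟩
    intro G a r hr hdiff hinj x hx
    refine ((hD G a r hr hdiff hinj).2 x ?_).2.2.2
    rw [show (1 - 1 / 2) * r = r / 2 by ring]
    exact hx
  have hC0 : 0 < C := by linarith
  obtain ⟨X₁, c₀, hX₁, hc₀, hbci⟩ := hBCI C D hKQ hKD
  have h8 : 1 ≤ 8 * C * (1 + D) := by nlinarith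
  obtain ⟨K₁, hK₁, hbnn⟩ := hBNN (1 + Real.log (8 * C * (1 + D))) (by
    have := Real.log_nonneg h8
    linarith)
  obtain ⟨k2, hk2⟩ : ∃ k2 : ℝ, k2 = 10 ^ 12 * K₁ ^ 2 / c₀ := ⟨_, rfl⟩
  obtain ⟨k3, hk3⟩ : ∃ k3 : ℝ, k3 = 96 * C ^ 2 / c₀ ^ 2 := ⟨_, rfl⟩
  obtain ⟨k4, hk4⟩ : ∃ k4 : ℝ, k4 = 48 * 10 ^ 16 * C ^ 2 * K₁ ^ 4 / c₀ ^ 4 := ⟨_, rfl⟩
  have t2 : 0 ≤ k2 := by rw [hk2]; positivity
  have t3 : 0 ≤ k3 := by rw [hk3]; positivity
  have t4 : 0 ≤ k4 := by rw [hk4]; positivity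
  refine ⟨(X₁ + 128 * C + 64) + k2 + k3 + k4, by linarith, ?_⟩
  intro c p q xx ε hret hX hε0 hx1 her
  obtain ⟨-, -, -, -, -, -, hA1, -, -, -, hnat⟩ := hNAT 2 c le_rfl
  obtain ⟨hR0, hR2, hX1, hRX, hA0, hxcp, hxc⟩ := hnat p q hret
  have hp1 : 1 ≤ p := by have := hret.q1; have := hret.qp; omega
  have hSS := GC2_SS 2 c p hp1 hA1
  have hlogS : 0 ≤ Real.log (SS 2 c p) := Real.log_nonneg hSS
  obtain ⟨N, hN1, hN2, hN3⟩ := hbnn (SS 2 c p) hSS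
  have hW0 : 0 ≤ Real.log (1 + Real.log (SS 2 c p)) := Real.log_nonneg (by linarith)
  obtain ⟨W, hW⟩ : ∃ W, W = 1 + Real.log (1 + Real.log (SS 2 c p)) := ⟨_, rfl⟩
  rw [← hW] at hN3 hX ⊢
  have hW1 : 1 ≤ W := by rw [hW]; linarith
  have hW4 : 1 ≤ W ^ 4 := one_le_pow₀ hW1
  have hK0 : 0 ≤ (X₁ + 128 * C + 64) + k2 + k3 + k4 := by linarith
  have hXK : (X₁ + 128 * C + 64) + k2 + k3 + k4 ≤ X 2 c p q := by
    refine le_trans ?_ hX
    exact le_mul_of_one_le_right hK0 hW4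
  have hXk2 : k2 * W ^ 4 ≤ X 2 c p q := by
    refine le_trans ?_ hX
    apply mul_le_mul_of_nonneg_right _ (by linarith)
    linarith
  have hX16 : 16 * C ≤ X 2 c p q := by linarith
  have hX128 : 128 * C ≤ X 2 c p q := by linarith
  have hXX₁ : X₁ ≤ X 2 c p q := by linarith
  have hXpos : 0 < X 2 c p q := by linarith
  have hgoal : ∀ k : ℝ, k ≤ (X₁ + 128 * C + 64) + k2 + k3 + k4 →
      R 2 c q / ‖A 2 c p‖ ≤ k * (W ^ 4 * ε) →
      R 2 c q / ‖A 2 c p‖ ≤ ((X₁ + 128 * C + 64) + k2 + k3 + k4) * W ^ 4 * ε := by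
    intro k hk h
    calc R 2 c q / ‖A 2 c p‖ ≤ k * (W ^ 4 * ε) := h
      _ ≤ ((X₁ + 128 * C + 64) + k2 + k3 + k4) * (W ^ 4 * ε) :=
        mul_le_mul_of_nonneg_right hk (by positivity)
      _ = _ := by ring
  have hx64 : ∀ j ∈ Finset.Icc 1 p, ‖xx j - 1‖ ≤ 1 / 64 := by
    intro j hj
    refine (hx1 j hj).trans (one_div_le_one_div_of_le (by norm_num) (by linarith))
  have hxX₁ : ∀ j ∈ Finset.Icc 1 p, ‖xx j - 1‖ ≤ 1 / X₁ := by
    intro j hj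
    refine (hx1 j hj).trans (one_div_le_one_div_of_le (by linarith) (by linarith))
  obtain ⟨G, hG⟩ := hTOW 2 c p q hret
  obtain ⟨hBm, hBi⟩ := hMSB xx 2 c p
  have hAp : 0 < ‖A 2 c p‖ := norm_pos_iff.2 (hA0 p hp1 (by omega))
  obtain ⟨-, hDm, hem, hEg⟩ := hENG 2 c (Bx xx 2 c p) ε le_rfl hret.hc hBm hBi hε0 her
  have hE0 : 0 ≤ 3 * ε := by linarith
  have hsg : sg C 2 c p q = R 2 c q / ‖A 2 c p‖ / (16 * C ^ 2) := by
    unfold sg
    field_simp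
  have hsg0 : 0 ≤ sg C 2 c p q := by
    rw [hsg]
    positivity
  rcases hbci xx c p q G _ hxX₁ hret hG hXX₁ hBm hDm hem hEg hE0 with h | ⟨m, hm, ρ, ν, hρ1, hρ2, hν, hann⟩
  · refine hgoal k3 (by linarith) ?_
    have h1 := GC2_end1 C ε c₀ _ _ hC1 hc₀ hsg h
    rw [← hk3] at h1
    refine h1.trans ?_
    apply mul_le_mul_of_nonneg_left _ t3
    exact le_mul_of_one_le_left hε0 hW4
  · refine hgoal k4 (by linarith) ?_
    obtain ⟨m', hm', F, hFd, hFa, hFw⟩ := hBCF xx C D 2 c p q G hx64 hKQ hKD hret hG hX128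
    have hlogM : Real.log (2 * (4 * C * (1 + D) * SS 2 c p)) ≤ 2 ^ N := by
      have h1 : 2 * (4 * C * (1 + D) * SS 2 c p) = 8 * C * (1 + D) * SS 2 c p := by ring
      rw [h1, Real.log_mul (by linarith) (by linarith)]
      refine le_trans ?_ hN2
      have h2 := Real.log_nonneg h8
      nlinarith
    have hNX : 10 ^ 12 * (N : ℝ) ^ 2 ≤ ρ * X 2 c p q := by
      have h1 : (N : ℝ) ^ 2 ≤ (K₁ * W) ^ 2 := pow_le_pow_left₀ (Nat.cast_nonneg N) hN3 2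
      rw [mul_pow] at h1
      have h3 : W ^ 2 ≤ W ^ 4 := pow_le_pow_right₀ hW1 (by norm_num)
      have h4 : c₀ * (k2 * W ^ 4) = 10 ^ 12 * (K₁ ^ 2 * W ^ 4) := by
        rw [hk2]
        field_simp
      have h5 : c₀ * (k2 * W ^ 4) ≤ c₀ * X 2 c p q := mul_le_mul_of_nonneg_left hXk2 hc₀.le
      have h6 : c₀ * X 2 c p q ≤ ρ * X 2 c p q := mul_le_mul_of_nonneg_right hρ1 hXpos.le
      have h7 : K₁ ^ 2 * W ^ 2 ≤ K₁ ^ 2 * W ^ 4 := mul_le_mul_of_nonneg_left h3 (by positivity)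
      linarith
    have key := hBAB xx C c p q G _ m m' N ρ (4 * C * (1 + D) * SS 2 c p) ν F hKQ hret hG hX16 hBm
      hDm hem hEg hE0 hm hm' hN1 (by linarith) hρ2 hNX hlogM hν hann hFd hFa hFw
    have h1 := GC2_end2 C ε c₀ _ _ N K₁ W hC1 hc₀ hε0 (Nat.cast_nonneg N) hN3 hsg (by
      refine le_trans ?_ key
      exact mul_le_mul_of_nonneg_left (pow_le_pow_left₀ hc₀.le hρ1 4) hsg0)
    rw [← hk4] at h1
    exact h1

/-- the weight is at least `1`. -/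
theorem WB_one (n : ℕ) (c : ℂ) (p : ℕ) : 1 ≤ WB n c p := by
  unfold WB
  split_ifs with hn
  · apply one_le_pow₀
    have hS : 0 ≤ Real.log (SS n c p) := by
      rcases Nat.eq_zero_or_pos p with hp | hp
      · subst hp
        unfold SS
        simp
      · apply Real.log_nonneg
        apply GC2_SS n c p hp
        subst hn
        simp [A]
    have := Real.log_nonneg (show 1 ≤ 1 + Real.log (SS n c p) by linarith)
    linarith
  · exact le_rfl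

/-- GCB: the general core theorem for all `n ≥ 2` with the weight `WB`. -/
theorem GCB (hGCO : GCO_stmt) (hGC2 : GC2_stmt) : GCW WB 2 := by
  obtain ⟨Ka, hKa, ha⟩ := hGCO
  obtain ⟨Kb, hKb, hb⟩ := hGC2
  refine ⟨max Ka Kb, le_max_of_le_left hKa, ?_⟩
  intro n hn c p q x ε hret hX hε hx her
  have ha' : Ka ≤ max Ka Kb := le_max_left _ _
  have hb' : Kb ≤ max Ka Kb := le_max_right _ _
  rcases Nat.eq_or_lt_of_le hn with h2 | h3
  · subst h2
    have hW : WB 2 c p = (1 + Real.log (1 + Real.log (SS 2 c p))) ^ 4 := by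
      unfold WB
      simp
    have hW1 := WB_one 2 c p
    rw [hW] at hX hW1 ⊢
    have h := hb c p q x ε hret ?_ hε ?_ her
    · refine h.trans ?_
      apply mul_le_mul_of_nonneg_right _ hε
      exact mul_le_mul_of_nonneg_right hb' (by linarith)
    · refine le_trans ?_ hX
      exact mul_le_mul_of_nonneg_right hb' (by linarith)
    · intro j hj
      exact (hx j hj).trans (one_div_le_one_div_of_le (by linarith) hb')
  · have hW : WB n c p = 1 := by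
      unfold WB
      rw [if_neg (by omega)]
    rw [hW, mul_one] at hX
    rw [hW, mul_one]
    have h := ha n (by omega) c p q x ε hret ?_ hε ?_ her
    · exact h.trans (mul_le_mul_of_nonneg_right ha' hε)
    · exact ha'.trans hX
    · intro j hj
      exact (hx j hj).trans (one_div_le_one_div_of_le (by linarith) ha')

end GR
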