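import Pool.Agent.helper69.G5.Spec

/-! # Project gbx, row gbx:KFNX (MP_af9036_an): the function `K = A_p (w - Z_p) τ` on a cell without zeros -/

set_option autoImplicit false

open Complex Metric Set Filter Topology MeasureTheory
open MPS (om)
open PPS (pre TT fd)
open XPS (Df er dens tau)
open Pool.Agent.helper16.Multibrot

noncomputable section

namespace GR

theorem KFNX_Nu_diff (xx : ℕ → ℂ) (n : ℕ) (c : ℂ) (p : ℕ) : Differentiable ℂ (Nux xx n c p) := by
  unfold Nux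
  refine Differentiable.fun_sum fun j _ => Differentiable.const_mul ?_ _
  refine Differentiable.fun_finsetProd fun i _ => ?_
  fun_prop

theorem KFNX_Nu_B (xx : ℕ → ℂ) (n : ℕ) (c : ℂ) (p : ℕ) (x : ℂ) (hx : ∀ i ∈ Finset.Icc 1 p, x ≠ Z n c i) :
    Nux xx n c p x = Bx xx n c p x * ∏ i ∈ Finset.Icc 1 p, (x - Z n c i) := by
  unfold Nux Bx
  rw [Finset.sum_mul]
  refine Finset.sum_congr rfl fun j hj => ?_
  rw [← Finset.mul_prod_erase _ _ hj]
  have h1 : x - Z n c j ≠ 0 := sub_ne_zero.mpr (hx j hj)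
  rw [← mul_assoc, div_mul_cancel₀ _ h1]

theorem KFNX_Nu_Z (xx : ℕ → ℂ) (n : ℕ) (c : ℂ) (p j : ℕ) (hj : j ∈ Finset.Icc 1 p) :
    Nux xx n c p (Z n c j) = xx j / A n c j * ∏ i ∈ (Finset.Icc 1 p).erase j, (Z n c j - Z n c i) := by
  unfold Nux
  rw [Finset.sum_eq_single j]
  · intro b hb hbj
    have h1 : ∏ i ∈ (Finset.Icc 1 p).erase b, (Z n c j - Z n c i) = 0 := by
      apply Finset.prod_eq_zero (Finset.mem_erase.mpr ⟨hbj.symm, hj⟩)
      exact sub_self _
    rw [h1, mul_zero]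
  · intro h
    exact absurd hj h

theorem KFNX (hDIS : DIS_stmt) (hTOP : TOP_stmt) (hNAT : NAT_stmt) : KFNX_stmt := by
  intro xx C n c p q G m hKQ hR hT hX hm hNu
  obtain ⟨-, -, -, -, -, -, -, -, -, -, hN⟩ := hNAT n c hR.hn
  obtain ⟨hR0, -, -, hRX, hA, -, -⟩ := hN p q hR
  obtain ⟨-, hinj, -, hd0, hdZ⟩ := hTOP n c p q G hR hT
  have hC : 1 ≤ C := hKQ.1
  have hC0 : 0 < C := by linarith
  have hr0 : 0 < R n c q / (8 * C) := by positivity
  have hrR : R n c q / (8 * C) ≤ R n c q := div_le_self hR0.le (by linarith)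
  have hsub : ball (0 : ℂ) (R n c q / (8 * C)) ⊆ ball 0 (R n c q) := ball_subset_ball hrR
  have hZp : Z n c p ∈ ball (0 : ℂ) (R n c q / (8 * C)) := by
    rw [mem_ball_zero_iff, lt_div_iff₀ (by positivity)]
    have h1 : 16 * C * ‖Z n c p‖ ≤ X n c p q * ‖Z n c p‖ :=
      mul_le_mul_of_nonneg_right hX (norm_nonneg _)
    rw [← hRX] at h1
    have h2 : 0 < ‖Z n c p‖ := norm_pos_iff.mpr (hR.ne0 p (by have := hR.q1; have := hR.qp; omega) le_rfl)
    nlinarith
  have hp1 : 1 ≤ p := by have := hR.q1; have := hR.qp; omega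
  have hj : p - m ∈ Finset.Icc 1 p := Finset.mem_Icc.mpr ⟨by omega, by omega⟩
  have hgd : DifferentiableOn ℂ (G m) (ball 0 (R n c q / (8 * C))) := (hT.diff m hm).mono hsub
  have hgZ : G m (Z n c p) = Z n c (p - m) := hT.val m hm
  have hA0 : ∀ j ∈ Finset.Icc 1 p, A n c j ≠ 0 := fun j hj => by
    rw [Finset.mem_Icc] at hj
    exact hA j hj.1 (by omega)
  have hAp : A n c p ≠ 0 := hA0 p (Finset.mem_Icc.mpr ⟨hp1, le_rfl⟩)
  have hAj : A n c (p - m) ≠ 0 := hA0 _ hj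
  have hD : DifferentiableOn ℂ (dslope (G m) (Z n c p)) (ball 0 (R n c q / (8 * C))) :=
    (Complex.differentiableOn_dslope (isOpen_ball.mem_nhds hZp)).mpr hgd
  have hDne : ∀ w ∈ ball (0 : ℂ) (R n c q / (8 * C)), w ≠ Z n c p →
      dslope (G m) (Z n c p) w = (G m w - Z n c (p - m)) / (w - Z n c p) := by
    intro w _ hne
    rw [dslope_of_ne _ hne, slope_def_field, hgZ]
  have hDZ : dslope (G m) (Z n c p) (Z n c p) = A n c (p - m) / A n c p := by
    rw [dslope_same, hdZ m hm]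
  have hgj : ∀ w ∈ ball (0 : ℂ) (R n c q / (8 * C)), w ≠ Z n c p → G m w ≠ Z n c (p - m) := by
    intro w hw hne h
    rw [← hgZ] at h
    exact hne (hinj m hm (hsub hw) (hsub hZp) h)
  have hD0 : ∀ w ∈ ball (0 : ℂ) (R n c q / (8 * C)), dslope (G m) (Z n c p) w ≠ 0 := by
    intro w hw
    by_cases hne : w = Z n c p
    · rw [hne, hDZ]
      exact div_ne_zero hAj hAp
    · rw [hDne w hw hne]
      exact div_ne_zero (sub_ne_zero.mpr (hgj w hw hne)) (sub_ne_zero.mpr hne)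
  have hgi : ∀ w ∈ ball (0 : ℂ) (R n c q / (8 * C)), ∀ i ∈ (Finset.Icc 1 p).erase (p - m),
      G m w ≠ Z n c i := by
    intro w hw i hi h
    rw [Finset.mem_erase, Finset.mem_Icc] at hi
    have h1 : G (p - i) (Z n c p) = Z n c i := by
      rw [hT.val (p - i) (by omega)]
      congr 1
      omega
    have h2 := hDIS C n c p q G hKQ hR hT hX m hm (p - i) (by omega) (by omega)
    refine (Set.disjoint_left.mp h2) (Set.mem_image_of_mem _ hw) ?_
    exact ⟨Z n c p, hZp, by rw [h1, h]⟩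
  have hP0 : ∀ w ∈ ball (0 : ℂ) (R n c q / (8 * C)),
      ∏ i ∈ (Finset.Icc 1 p).erase (p - m), (G m w - Z n c i) ≠ 0 := by
    intro w hw
    exact Finset.prod_ne_zero_iff.mpr fun i hi => sub_ne_zero.mpr (hgi w hw i hi)
  have hP : DifferentiableOn ℂ (fun w => ∏ i ∈ (Finset.Icc 1 p).erase (p - m), (G m w - Z n c i))
      (ball 0 (R n c q / (8 * C))) := by
    refine DifferentiableOn.fun_finsetProd fun i _ => ?_
    exact hgd.sub_const _
  have hdg : DifferentiableOn ℂ (deriv (G m)) (ball 0 (R n c q / (8 * C))) := hgd.deriv isOpen_ball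
  have hNd : DifferentiableOn ℂ (fun w => Nux xx n c p (G m w)) (ball 0 (R n c q / (8 * C))) :=
    (KFNX_Nu_diff xx n c p).comp_differentiableOn hgd
  refine ⟨fun w => A n c p * deriv (G m) w ^ 2 * Nux xx n c p (G m w) /
    (dslope (G m) (Z n c p) w * ∏ i ∈ (Finset.Icc 1 p).erase (p - m), (G m w - Z n c i)), ?_, ?_, ?_, ?_⟩
  · refine DifferentiableOn.div ?_ (hD.mul hP) fun w hw => mul_ne_zero (hD0 w hw) (hP0 w hw)
    exact ((hdg.pow 2).const_mul _).mul hNd
  · intro w hw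
    exact div_ne_zero (mul_ne_zero (mul_ne_zero hAp (pow_ne_zero _ (hd0 m hm w (hsub hw)))) (hNu w hw))
      (mul_ne_zero (hD0 w hw) (hP0 w hw))
  · have h1 := hP0 _ hZp
    rw [hgZ] at h1
    show A n c p * deriv (G m) (Z n c p) ^ 2 * Nux xx n c p (G m (Z n c p)) /
      (dslope (G m) (Z n c p) (Z n c p) *
        ∏ i ∈ (Finset.Icc 1 p).erase (p - m), (G m (Z n c p) - Z n c i)) = _
    rw [hDZ, hdZ m hm, hgZ, KFNX_Nu_Z xx n c p (p - m) hj]
    generalize ∏ i ∈ (Finset.Icc 1 p).erase (p - m), (Z n c (p - m) - Z n c i) = Q at h1 ⊢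
    field_simp
  · intro w hw hne
    show A n c p * deriv (G m) w ^ 2 * Nux xx n c p (G m w) /
      (dslope (G m) (Z n c p) w *
        ∏ i ∈ (Finset.Icc 1 p).erase (p - m), (G m w - Z n c i)) = _
    have h1 : ∀ i ∈ Finset.Icc 1 p, G m w ≠ Z n c i := by
      intro i hi
      by_cases h : i = p - m
      · rw [h]
        exact hgj w hw hne
      · exact hgi w hw i (Finset.mem_erase.mpr ⟨h, hi⟩)
    rw [KFNX_Nu_B xx n c p _ h1, hDne w hw hne, ← Finset.mul_prod_erase _ _ hj]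
    have h2 := hP0 w hw
    have h3 : G m w - Z n c (p - m) ≠ 0 := sub_ne_zero.mpr (hgj w hw hne)
    have h4 : w - Z n c p ≠ 0 := sub_ne_zero.mpr hne
    show _ = A n c p * (w - Z n c p) * (deriv (G m) w ^ 2 * Bx xx n c p (G m w))
    generalize ∏ i ∈ (Finset.Icc 1 p).erase (p - m), (G m w - Z n c i) = Q at h2 ⊢
    field_simp

end GR
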