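import Pool.Agent.helper69.G5.Spec

/-! gbx: KUBX (copy of g2:KUB): the upper bound on a circle. -/

set_option autoImplicit false

open Complex Metric Set Filter Topology MeasureTheory
open MPS (om)
open PPS (pre TT fd)
open XPS (Df er dens tau)
open Pool.Agent.helper16.Multibrot

noncomputable section

namespace GR

theorem KUBX (hDIS : DIS_stmt) (hTOP : TOP_stmt) (hCEL : CEL_stmt) (hNAT : NAT_stmt) : KUBX_stmt := by
  intro xx C D n c p q G m hxx2 hKQ hKD hRet hTow hX hm w hw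
  obtain ⟨hC1, hKQ'⟩ := hKQ
  obtain ⟨hD1, hKD'⟩ := hKD
  have hC0 : 0 < C := by linarith
  have hX16 : 16 * C ≤ X n c p q := by linarith
  have hn := hRet.hn
  obtain ⟨-, -, -, -, -, -, -, -, -, -, hN⟩ := hNAT n c hn
  obtain ⟨hR0, hR2, hX1, hRX, hA0, -, hxc⟩ := hN p q hRet
  obtain ⟨-, -, hlam⟩ := hCEL C n c p q G ⟨hC1, hKQ'⟩ hRet hTow hX16
  obtain ⟨-, hinj, -, hder0, hderZ⟩ := hTOP n c p q G hRet hTow
  have hX0 : 0 < X n c p q := by linarith
  -- the point Z p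
  obtain ⟨r₀, hr₀⟩ : ∃ r₀ : ℝ, r₀ = R n c q / (8 * C) := ⟨_, rfl⟩
  have hr0 : 0 < r₀ := by rw [hr₀]; positivity
  have hr0R : r₀ ≤ R n c q / 8 := by
    rw [hr₀]
    apply div_le_div_of_nonneg_left hR0.le (by norm_num)
    linarith
  have hRr : R n c q = 8 * C * r₀ := by
    rw [hr₀]; field_simp
  have hZp : ‖Z n c p‖ ≤ r₀ / 16 := by
    have h1 : 128 * C * ‖Z n c p‖ ≤ 8 * C * r₀ := by
      rw [← hRr, hRX]
      exact mul_le_mul_of_nonneg_right hX (norm_nonneg _)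
    have h2 : C * (128 * ‖Z n c p‖) ≤ C * (8 * r₀) := by linarith
    have h3 := le_of_mul_le_mul_left h2 hC0
    linarith
  have hZpm : Z n c p ∈ ball (0 : ℂ) r₀ := by
    rw [mem_ball_zero_iff]
    linarith
  have hwZ : ‖w - Z n c p‖ = r₀ / 2 := by
    rw [hw, hRr]
    field_simp
    norm_num
  have hsubR : ball (0 : ℂ) r₀ ⊆ ball (0 : ℂ) (R n c q) := by
    apply ball_subset_ball
    linarith
  have hball : ball w (r₀ / 4) ⊆ ball (0 : ℂ) r₀ := by
    intro u hu
    rw [mem_ball, dist_eq_norm] at hu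
    rw [mem_ball_zero_iff]
    have : u = (u - w) + (w - Z n c p) + Z n c p := by ring
    rw [this]
    calc ‖(u - w) + (w - Z n c p) + Z n c p‖ ≤ ‖(u - w) + (w - Z n c p)‖ + ‖Z n c p‖ := norm_add_le _ _
      _ ≤ ‖u - w‖ + ‖w - Z n c p‖ + ‖Z n c p‖ := by
          have := norm_add_le (u - w) (w - Z n c p)
          linarith
      _ < r₀ := by linarith
  have hwr : w ∈ ball (0 : ℂ) (R n c q) := hsubR (hball (mem_ball_self (by linarith)))
  have hdG : DifferentiableOn ℂ (G m) (ball 0 (R n c q)) := hTow.diff m hm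
  have hdw : DifferentiableOn ℂ (G m) (ball w (r₀ / 4)) := hdG.mono (hball.trans hsubR)
  have hiw : InjOn (G m) (ball w (r₀ / 4)) := (hinj m hm).mono (hball.trans hsubR)
  have hg0 : 0 < ‖deriv (G m) w‖ := norm_pos_iff.2 (hder0 m hm w hwr)
  have himg := hKQ' (G m) w (r₀ / 4) (by linarith) hdw hiw
  obtain ⟨ρ, hρ⟩ : ∃ ρ : ℝ, ρ = r₀ / 4 * ‖deriv (G m) w‖ / C := ⟨_, rfl⟩
  rw [← hρ] at himg
  have hρ0 : 0 < ρ := by rw [hρ]; positivity
  -- the points Z i are outside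
  have hout : ∀ i ∈ Finset.Icc 1 p, ρ ≤ ‖G m w - Z n c i‖ := by
    intro i hi
    rw [Finset.mem_Icc] at hi
    by_contra hcon
    push Not at hcon
    have hmem : Z n c i ∈ ball (G m w) ρ := by
      rw [mem_ball, dist_comm, dist_eq_norm]
      exact hcon
    obtain ⟨u, hu, hui⟩ := himg hmem
    have hpi : p - i < p := by omega
    have hval : G (p - i) (Z n c p) = Z n c i := by
      have := hTow.val (p - i) hpi
      rw [this]
      congr 1
      omega
    by_cases hmi : m = p - i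
    · -- same cell
      have h1 : G m u = G m (Z n c p) := by rw [hui, hmi, hval]
      have h2 : u = Z n c p := hinj m hm (hsubR (hball hu)) (hsubR hZpm) h1
      rw [mem_ball, dist_eq_norm, h2, norm_sub_rev, hwZ] at hu
      linarith
    · have hd := hDIS C n c p q G ⟨hC1, hKQ'⟩ hRet hTow hX16 m hm (p - i) hpi hmi
      rw [← hr₀] at hd
      exact Set.disjoint_left.1 hd ⟨u, hball hu, hui⟩ ⟨Z n c p, hZpm, hval⟩
  -- the bound of B
  obtain ⟨T, hT⟩ : ∃ T : ℝ, T = ∑ i ∈ Finset.Icc 1 p, 1 / ‖A n c i‖ := ⟨_, rfl⟩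
  have hB : ‖Bx xx n c p (G m w)‖ ≤ 2 / ρ * T := by
    unfold Bx
    rw [hT, Finset.mul_sum]
    refine (norm_sum_le _ _).trans (Finset.sum_le_sum fun i hi => ?_)
    have hi' := Finset.mem_Icc.1 hi
    have hAi : 0 < ‖A n c i‖ := norm_pos_iff.2 (hA0 i hi'.1 (by omega))
    rw [norm_div, norm_div, div_div]
    have e : 2 / ρ * (1 / ‖A n c i‖) = 2 / (‖A n c i‖ * ρ) := by field_simp
    rw [e]
    apply div_le_div₀ (by norm_num) (hxx2 i hi) (by positivity)
    exact mul_le_mul_of_nonneg_left (hout i hi) hAi.le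
  -- the derivative
  have hZR : ball (Z n c p) (R n c q / 2) ⊆ ball (0 : ℂ) (R n c q) := by
    intro u hu
    rw [mem_ball, dist_eq_norm] at hu
    rw [mem_ball_zero_iff]
    have h1 : ‖u‖ ≤ ‖u - Z n c p‖ + ‖Z n c p‖ := by
      have := norm_add_le (u - Z n c p) (Z n c p)
      rwa [sub_add_cancel] at this
    linarith
  have hder := hKD' (G m) (Z n c p) (R n c q / 2) (by linarith) (hdG.mono hZR)
    ((hinj m hm).mono hZR) w (by
      rw [mem_ball, dist_eq_norm, hwZ]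
      linarith)
  have hjm : 1 ≤ p - m := by omega
  have hAp : 0 < ‖A n c p‖ := norm_pos_iff.2 (hA0 p (by have := hRet.q1; have := hRet.qp; omega) (by omega))
  have hAj : 0 < ‖A n c (p - m)‖ := norm_pos_iff.2 (hA0 (p - m) hjm (by omega))
  have hgle : ‖deriv (G m) w‖ ≤ (1 + D) * (‖A n c (p - m)‖ / ‖A n c p‖) := by
    have h1 : ‖deriv (G m) (Z n c p)‖ = ‖A n c (p - m)‖ / ‖A n c p‖ := by
      rw [hderZ m hm, norm_div]
    have h2 : ‖deriv (G m) w‖ ≤ ‖deriv (G m) w - deriv (G m) (Z n c p)‖ + ‖deriv (G m) (Z n c p)‖ := by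
      have := norm_add_le (deriv (G m) w - deriv (G m) (Z n c p)) (deriv (G m) (Z n c p))
      rwa [sub_add_cancel] at this
    have h3 : D * (‖w - Z n c p‖ / (R n c q / 2)) ≤ D * 1 := by
      apply mul_le_mul_of_nonneg_left _ (by linarith)
      rw [div_le_one (by linarith), hwZ]
      linarith
    have h4 := mul_le_mul_of_nonneg_right h3 (norm_nonneg (deriv (G m) (Z n c p)))
    rw [← h1]
    linarith
  -- the sum
  have hSS : ‖A n c (p - m)‖ * T ≤ SS n c p := by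
    unfold SS
    rw [hT, Finset.mul_sum]
    refine Finset.sum_le_sum fun i hi => ?_
    have hi' := Finset.mem_Icc.1 hi
    have e : ‖A n c (p - m)‖ * (1 / ‖A n c i‖) = ‖A n c (p - m)‖ / ‖A n c i‖ := by ring
    rw [e]
    exact Finset.single_le_sum (f := fun j => ‖A n c j‖ / ‖A n c i‖)
      (fun j _ => div_nonneg (norm_nonneg _) (norm_nonneg _)) (Finset.mem_Icc.2 ⟨hjm, by omega⟩)
  have hT0 : 0 ≤ T := by
    rw [hT]
    exact Finset.sum_nonneg fun i _ => by positivity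
  -- the end
  have e1 : ‖A n c p * (w - Z n c p) * tau (Bx xx n c p) G m w‖ =
      ‖A n c p‖ * (r₀ / 2) * (‖deriv (G m) w‖ ^ 2 * ‖Bx xx n c p (G m w)‖) := by
    unfold tau
    rw [norm_mul, norm_mul, norm_mul, norm_pow, hwZ]
  rw [e1]
  calc ‖A n c p‖ * (r₀ / 2) * (‖deriv (G m) w‖ ^ 2 * ‖Bx xx n c p (G m w)‖)
      ≤ ‖A n c p‖ * (r₀ / 2) * (‖deriv (G m) w‖ ^ 2 * (2 / ρ * T)) := by gcongr
    _ = 4 * C * ‖A n c p‖ * T * ‖deriv (G m) w‖ := by
        rw [hρ]
        field_simp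
    _ ≤ 4 * C * ‖A n c p‖ * T * ((1 + D) * (‖A n c (p - m)‖ / ‖A n c p‖)) := by gcongr
    _ = 4 * C * (1 + D) * (‖A n c (p - m)‖ * T) := by
        field_simp
    _ ≤ 4 * C * (1 + D) * SS n c p := by
        have : 0 ≤ 4 * C * (1 + D) := by positivity
        exact mul_le_mul_of_nonneg_left hSS this

end GR
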