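import Pool.Agent.helper84.G4.SpecW
import Pool.Agent.helper69.GR2B.Spec

/-!
# Project gbx: (MP_af9036_an x25, MP_70a088_an x10): the general core theorem for `n = 2`

Copy of projects g2: (helper33) and gb: (helper69) with `B n c p q` replaced by `Bx xx n c p` and the coefficients `xc n c p q j` by arbitrary `xx j` close to `1`.
Result: `GC2_stmt` and, with helper84's `GCO_stmt` for `n ≥ 3`, `GCW WB 2`.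
-/

set_option autoImplicit false

open Complex Metric Set Filter Topology MeasureTheory
open MPS (om)
open PPS (pre TT fd)
open XPS (Df er dens tau)
open Pool.Agent.helper16.Multibrot

noncomputable section

namespace GR

/-- the numerator of `Bx`: `Bx w * ∏ (w - Z i) = Nux w`. -/
def Nux (xx : ℕ → ℂ) (n : ℕ) (c : ℂ) (p : ℕ) (w : ℂ) : ℂ :=
  ∑ j ∈ Finset.Icc 1 p, xx j / A n c j * ∏ i ∈ (Finset.Icc 1 p).erase j, (w - Z n c i)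

/-- the weight: `(1 + log (1 + log SS))^4` for `n = 2`, `1` otherwise. -/
def WB (n : ℕ) (c : ℂ) (p : ℕ) : ℝ := if n = 2 then (1 + Real.log (1 + Real.log (SS n c p))) ^ 4 else 1

/-- ZROX. Copy of ZRO. -/
def ZROX_stmt : Prop := ∀ (xx : ℕ → ℂ) (C : ℝ) (n : ℕ) (c : ℂ) (p q : ℕ) (G : ℕ → ℂ → ℂ),
  (∀ j ∈ Finset.Icc 1 p, xx j ≠ 0) → KQ C → Ret n c p q →
  Tow n c p q G → 16 * C ≤ X n c p q → ∃ m < p, ∀ w ∈ ball (0 : ℂ) (R n c q / (8 * C)), Nux xx n c p (G m w) ≠ 0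

/-- KFNX. Copy of KFN. -/
def KFNX_stmt : Prop := ∀ (xx : ℕ → ℂ) (C : ℝ) (n : ℕ) (c : ℂ) (p q : ℕ) (G : ℕ → ℂ → ℂ) (m : ℕ), KQ C → Ret n c p q →
  Tow n c p q G → 16 * C ≤ X n c p q → m < p → (∀ w ∈ ball (0 : ℂ) (R n c q / (8 * C)), Nux xx n c p (G m w) ≠ 0) →
  ∃ K : ℂ → ℂ, DifferentiableOn ℂ K (ball 0 (R n c q / (8 * C))) ∧ (∀ w ∈ ball (0 : ℂ) (R n c q / (8 * C)), K w ≠ 0) ∧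
    K (Z n c p) = xx (p - m) ∧ ∀ w ∈ ball (0 : ℂ) (R n c q / (8 * C)), w ≠ Z n c p →
      K w = A n c p * (w - Z n c p) * tau (Bx xx n c p) G m w

/-- KUBX. Copy of KUB. -/
def KUBX_stmt : Prop := ∀ (xx : ℕ → ℂ) (C D : ℝ) (n : ℕ) (c : ℂ) (p q : ℕ) (G : ℕ → ℂ → ℂ) (m : ℕ),
  (∀ j ∈ Finset.Icc 1 p, ‖xx j‖ ≤ 2) → KQ C → KD D → Ret n c p q →
  Tow n c p q G → 128 * C ≤ X n c p q → m < p → ∀ w : ℂ, ‖w - Z n c p‖ = R n c q / (16 * C) →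
  ‖A n c p * (w - Z n c p) * tau (Bx xx n c p) G m w‖ ≤ 4 * C * (1 + D) * SS n c p

/-- BCFX. Copy of BCF. -/
def BCFX_stmt : Prop := ∀ (xx : ℕ → ℂ) (C D : ℝ) (n : ℕ) (c : ℂ) (p q : ℕ) (G : ℕ → ℂ → ℂ),
  (∀ j ∈ Finset.Icc 1 p, ‖xx j - 1‖ ≤ 1 / 64) → KQ C → KD D → Ret n c p q →
  Tow n c p q G → 128 * C ≤ X n c p q → ∃ m < p, ∃ F : ℂ → ℂ,
    DifferentiableOn ℂ F (ball (Z n c p) (R n c q / (16 * C))) ∧ ‖F (Z n c p) - 1‖ ≤ 1 / 64 ∧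
    ∀ w ∈ ball (Z n c p) (R n c q / (16 * C)), F w ≠ 0 ∧ ‖F w‖ ≤ 4 * C * (1 + D) * SS n c p ∧
      (w ≠ Z n c p → F w = A n c p * (w - Z n c p) * tau (Bx xx n c p) G m w)

/-- BSYX. Copy of BSY. -/
def BSYX_stmt : Prop := ∀ (xx : ℕ → ℂ) (C : ℝ) (n : ℕ) (c : ℂ) (p q : ℕ) (G : ℕ → ℂ → ℂ) (E : ℝ), KQ C → Ret n c p q →
  Tow n c p q G → 16 * C ≤ X n c p q → Measurable (Bx xx n c p) → Measurable (Df (fp n c) (Bx xx n c p)) →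
  Measurable (er (fp n c) (Bx xx n c p)) →
  Eg n c (Bx xx n c p) E → 0 ≤ E → ∀ m < p, ∀ (κ : ℂ) (d : ℤ) (ρ t : ℝ), ¬ ((n : ℤ) ∣ d + 2) → 0 < ρ →
  ρ ≤ R n c q / (8 * C) → 0 ≤ t → (∀ w : ℂ, ρ / 2 < ‖w‖ → ‖w‖ < ρ →
    ‖tau (Bx xx n c p) G m w - κ * w ^ d‖ ≤ 1 / 4 * ‖κ * w ^ d‖ ∧ t ≤ ‖κ * w ^ d‖) → t * ρ ^ 2 ≤ 2 * E

/-- BCIX. Copy of BCI. -/
def BCIX_stmt : Prop := ∀ C D : ℝ, KQ C → KD D → ∃ X₁ c₀ : ℝ, 16 * C + 2 ≤ X₁ ∧ 0 < c₀ ∧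
  ∀ (xx : ℕ → ℂ) (c : ℂ) (p q : ℕ) (G : ℕ → ℂ → ℂ) (E : ℝ), (∀ j ∈ Finset.Icc 1 p, ‖xx j - 1‖ ≤ 1 / X₁) →
  Ret 2 c p q → Tow 2 c p q G → X₁ ≤ X 2 c p q → Measurable (Bx xx 2 c p) →
  Measurable (Df (fp 2 c) (Bx xx 2 c p)) → Measurable (er (fp 2 c) (Bx xx 2 c p)) → Eg 2 c (Bx xx 2 c p) E → 0 ≤ E →
  sg C 2 c p q * c₀ ^ 2 ≤ 2 * E ∨ ∃ m < p, ∃ (ρ : ℝ) (ν : ℂ), c₀ ≤ ρ ∧ ρ ≤ 1 / (16 * C) ∧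
    sg C 2 c p q / R 2 c q ^ 2 ≤ ‖ν‖ ∧ ∀ w : ℂ, ρ / 2 * R 2 c q < ‖w‖ → ‖w‖ < ρ * R 2 c q →
      ‖tau (Bx xx 2 c p) G m w - ν‖ ≤ 1 / 16 * ‖ν‖

/-- BABX. Copy of BAB. -/
def BABX_stmt : Prop := ∀ (xx : ℕ → ℂ) (C : ℝ) (c : ℂ) (p q : ℕ) (G : ℕ → ℂ → ℂ) (E : ℝ) (m m' N : ℕ) (ρ M : ℝ) (ν : ℂ) (F : ℂ → ℂ),
  KQ C → Ret 2 c p q → Tow 2 c p q G → 16 * C ≤ X 2 c p q → Measurable (Bx xx 2 c p) →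
  Measurable (Df (fp 2 c) (Bx xx 2 c p)) → Measurable (er (fp 2 c) (Bx xx 2 c p)) → Eg 2 c (Bx xx 2 c p) E → 0 ≤ E →
  m < p → m' < p → 1 ≤ N → 0 < ρ → ρ ≤ 1 / (16 * C) → 10 ^ 12 * (N : ℝ) ^ 2 ≤ ρ * X 2 c p q → Real.log (2 * M) ≤ 2 ^ N →
  sg C 2 c p q / R 2 c q ^ 2 ≤ ‖ν‖ → (∀ w : ℂ, ρ / 2 * R 2 c q < ‖w‖ → ‖w‖ < ρ * R 2 c q →
    ‖tau (Bx xx 2 c p) G m w - ν‖ ≤ 1 / 16 * ‖ν‖) →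
  DifferentiableOn ℂ F (ball (Z 2 c p) (R 2 c q / (16 * C))) → ‖F (Z 2 c p) - 1‖ ≤ 1 / 64 →
  (∀ w ∈ ball (Z 2 c p) (R 2 c q / (16 * C)), F w ≠ 0 ∧ ‖F w‖ ≤ M ∧
    (w ≠ Z 2 c p → F w = A 2 c p * (w - Z 2 c p) * tau (Bx xx 2 c p) G m' w)) →
  sg C 2 c p q * ρ ^ 4 ≤ 10 ^ 16 * E * (N : ℝ) ^ 4

/-- GC2: the general core theorem for `n = 2`. Copy of BCOR. -/
def GC2_stmt : Prop := ∃ K : ℝ, 1 ≤ K ∧ ∀ (c : ℂ) (p q : ℕ) (xx : ℕ → ℂ) (ε : ℝ), Ret 2 c p q →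
  K * (1 + Real.log (1 + Real.log (SS 2 c p))) ^ 4 ≤ X 2 c p q → 0 ≤ ε → (∀ j ∈ Finset.Icc 1 p, ‖xx j - 1‖ ≤ 1 / K) →
  ∫⁻ z in ball (0 : ℂ) 4, ENNReal.ofReal ‖er (fp 2 c) (Bx xx 2 c p) z‖ ≤ ENNReal.ofReal ε →
  R 2 c q / ‖A 2 c p‖ ≤ K * (1 + Real.log (1 + Real.log (SS 2 c p))) ^ 4 * ε

end GR
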