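import Pool.Agent.helper69.G5.Spec

/-!
# Project gbx: module ZROX (copy of g2:ZRO)
-/

set_option autoImplicit false

open Complex Metric Set Filter Topology MeasureTheory
open MPS (om)
open PPS (pre TT fd)
open XPS (Df er dens tau)
open Pool.Agent.helper16.Multibrot

noncomputable section

namespace GR

theorem ZROX (hZR1 : ZR1_stmt) (hDIS : DIS_stmt) (hCEL : CEL_stmt) (hNAT : NAT_stmt) :
    ZROX_stmt := by
  intro xx C n c p q G hxx hKQ hR hT hX
  obtain ⟨-, -, -, -, -, -, -, -, -, -, hN⟩ := hNAT n c hR.hn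
  obtain ⟨hR0, hR2, hX1, hRX, hA0, -, hxc⟩ := hN p q hR
  obtain ⟨-, -, hlam⟩ := hCEL C n c p q G hKQ hR hT hX
  have hC1 : 1 ≤ C := hKQ.1
  have hC0 : 0 < C := by linarith
  have hX0 : 0 < X n c p q := by linarith
  have hp1 : 1 ≤ p := by have := hR.qp; omega
  have hZp : Z n c p ∈ ball (0 : ℂ) (R n c q / (8 * C)) := by
    rw [mem_ball_zero_iff, lt_div_iff₀ (by positivity)]
    rw [hRX]
    have hz : 0 < ‖Z n c p‖ := norm_pos_iff.2 (hR.ne0 p hp1 le_rfl)
    have : ‖Z n c p‖ * (8 * C) < ‖Z n c p‖ * X n c p q :=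
      mul_lt_mul_of_pos_left (by linarith) hz
    linarith
  have hlam8 : ‖lam n c p q‖ ≤ 1 / 8 := by
    refine hlam.trans ?_
    rw [div_le_iff₀ hX0]
    linarith
  have hmem : ∀ i ∈ Finset.Icc 1 p, Z n c i ∈ G (p - i) '' ball 0 (R n c q / (8 * C)) := by
    intro i hi
    rw [Finset.mem_Icc] at hi
    refine ⟨Z n c p, hZp, ?_⟩
    rw [hT.val (p - i) (by omega)]
    congr 1
    omega
  have hdis : ∀ i ∈ Finset.Icc 1 p, ∀ j ∈ Finset.Icc 1 p, i ≠ j →
      Disjoint (G (p - i) '' ball 0 (R n c q / (8 * C)))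
        (G (p - j) '' ball 0 (R n c q / (8 * C))) := by
    intro i hi j hj hij
    rw [Finset.mem_Icc] at hi hj
    exact hDIS C n c p q G hKQ hR hT hX (p - i) (by omega) (p - j) (by omega) (by omega)
  have hz : ∀ i ∈ Finset.Icc 1 p, ∀ j ∈ Finset.Icc 1 p, i ≠ j → Z n c i ≠ Z n c j := by
    intro i hi j hj hij h
    exact Set.disjoint_left.1 (hdis i hi j hj hij) (hmem i hi) (h ▸ hmem j hj)
  have hq : ∀ i ∈ Finset.Icc 1 p, xx i / A n c i ≠ 0 := by
    intro i hi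
    rw [Finset.mem_Icc] at hi
    exact div_ne_zero (hxx i (Finset.mem_Icc.2 hi)) (hA0 i hi.1 (by omega))
  obtain ⟨i, hi, h⟩ := hZR1 ℕ (Finset.Icc 1 p) (Z n c) (fun j => xx j / A n c j)
    (fun j => G (p - j) '' ball 0 (R n c q / (8 * C))) ⟨1, Finset.mem_Icc.2 ⟨le_rfl, hp1⟩⟩
    hdis hz hq
  have hi' := Finset.mem_Icc.1 hi
  refine ⟨p - i, by omega, fun w hw => ?_⟩
  exact h _ (mem_image_of_mem _ hw)

end GR
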